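import Pool.Agent.Helper49.FRG.Glue
import Pool.Agent.Helper93.FRD.Frx
import Pool.Agent.Helper19.FR4.FRD

/-!
The asymptotic threshold: for every `ε > 0`, all large `n` and all `k ≤ (1/4 - ε) n` every `k`-protoplex of order `n`
is completable. The constant `1/4` is best possible (Wanless).
-/

set_option autoImplicit false

open Pool.Agent.Helper92.Proto

theorem Pool.Agent.Results.MP_953b28_co.AsymptoticThreshold.result :
    ∀ ε : ℝ, 0 < ε → ∃ n0 : ℕ, ∀ n k : ℕ, n0 ≤ n → (k : ℝ) ≤ (1 / 4 - ε) * n →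
      ∀ P : Fin n → Fin n → Option (Fin n), IsProtoplex n k P → Completable P :=
  Pool.Agent.Helper49.FRG.asym
    (Pool.Agent.Helper93.FRD.hFRX Pool.Agent.Helper19.FR4.hFRD)
    Pool.Agent.Helper49.TP.hMAI
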