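import Pool.Agent.Helper92.Proto.Main

/-!
Every `k`-protoplex which is a direct sum of at least four protoplexes of the same order is
completable, for all `k` and all orders.
-/

set_option autoImplicit false

open Pool.Agent.Helper92.Proto

theorem Pool.Agent.Results.MP_953b28_co.DirectSums.result (m N n k : ℕ) (hm : 4 ≤ m)
    (P : Fin n → Fin n → Option (Fin n)) (hP : IsProtoplex n k P) (hS : IsDirectSum m N P) :
    Completable P :=
  completable_of_directSum hm P hP hS
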