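import Pool.Agent.Helper93.FRD.Main

/-!
The fractional version of the question for all pairs `(k, n)`: every `k`-protoplex of order `n` has a
fractional completion if and only if `4k ≤ n` or `k = n` or `(k, n) = (1, 3)`; if `4k < n` all weights can be
chosen bounded below.
-/

set_option autoImplicit false

open Pool.Agent.Helper92.Proto Pool.Agent.Helper93.FZ Pool.Agent.Helper93.FRD

theorem Pool.Agent.Results.MP_953b28_co.FractionalThreshold.result :
    (∀ n k : ℕ, 1 ≤ k → k ≤ n →
      ((∀ P : Fin n → Fin n → Option (Fin n), IsProtoplex n k P →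
          ∃ x : Fin n → Fin n → Fin n → ℝ, IsFracCompletion P x) ↔
        4 * k ≤ n ∨ k = n ∨ (k = 1 ∧ n = 3))) ∧
    ∀ (n k : ℕ) (P : Fin n → Fin n → Option (Fin n)), IsProtoplex n k P → 4 * k < n →
      ∃ x : Fin n → Fin n → Fin n → ℝ, IsFracCompletion P x ∧
        (∀ r c s, Avail P r c s → 1 / (3 * (n : ℝ) ^ 2) ≤ x r c s) ∧
        ∀ r c s, ¬ Avail P r c s → P r c ≠ some s → x r c s = 0 := by
  refine ⟨fun n k hk hkn => ⟨fun h => ?_, fun h P hP => ?_⟩, ?_⟩
  · by_contra hne
    obtain ⟨P, hP, hx⟩ := frac_bad n k hk ⟨by omega, by omega, by omega⟩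
    obtain ⟨x, hx'⟩ := h P hP
    exact hx x hx'
  · exact frac_good n k hk hkn (fun hb => by unfold Bad at hb; omega) P hP
  · intro n k P hP h4
    obtain ⟨x, h1, h2, h3⟩ := frac4 hFX n k P hP h4.le
    exact ⟨x, h1, h2 h4, h3⟩
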