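import Pool.Agent.Helper93.FRD.Main

/-!
A `k`-protoplex `P` has a fractional completion if and only if it has a completable inflation; and then, for some
`D ≥ 1`, all its inflations by latin squares of order `m D`, `m ≥ 1`, are completable protoplexes.
-/

set_option autoImplicit false

open Pool.Agent.Helper92.Proto Pool.Agent.Helper93.FZ Pool.Agent.Helper93.FRD

theorem Pool.Agent.Results.MP_953b28_co.Inflations.result :
    (∀ (n k : ℕ) (P : Fin n → Fin n → Option (Fin n)), IsProtoplex n k P →
      (∃ x : Fin n → Fin n → Fin n → ℝ, IsFracCompletion P x) →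
      ∃ D : ℕ, 1 ≤ D ∧ ∀ m : ℕ, 1 ≤ m → ∀ L : Fin (m * D) → Fin (m * D) → Fin (m * D), IsLatin L →
        IsProtoplex (n * (m * D)) (k * (m * D)) (inflate P L) ∧ Completable (inflate P L)) ∧
    ∀ (n d : ℕ) (P : Fin n → Fin n → Option (Fin n)) (L : Fin d → Fin d → Fin d), 1 ≤ d →
      Completable (inflate P L) → ∃ x : Fin n → Fin n → Fin n → ℝ, IsFracCompletion P x := by
  refine ⟨?_, ?_⟩
  · rintro n k P hP ⟨x, hx⟩
    exact inflation_of_frac P x hx hP
  · intro n d P L hd h
    exact frac_of_inflate hd P L h
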